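import Pool.Agent.H49.G.R_seed8.Y957.VK.Stm2
import Pool.Agent.H49.G.R_seed8.Y691.AD.Ae1

/-!
# Project VK: the modulus of continuity of the window function
-/

set_option autoImplicit false

namespace Pool.Agent.Y185.VK

open Finset MeasureTheory Filter Topology
open Pool.Agent.Y957.AD (PolyVar)
open Pool.Agent.Y957.VK
open Pool.Agent.Y691.AD (va va_sub va_mono va_nonneg int_var)

/-- the monotone function controlling the window function -/
noncomputable def vb (A : ℝ → ℂ) (b L y : ℝ) : ℝ :=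
  if y < 0 then 0 else if y ≤ L then 1 + va A (Real.exp (b + y)) else 2 + va A (Real.exp (b + L))

theorem Bw_zero {A : ℝ → ℂ} {b L y : ℝ} (h : y ∉ Set.Icc 0 L) : Bw A b L y = 0 := by
  unfold Bw
  rw [if_neg h]

theorem Bw_in {A : ℝ → ℂ} {b L y : ℝ} (h : y ∈ Set.Icc 0 L) :
    Bw A b L y = A (Real.exp (b + y)) := by
  unfold Bw
  rw [if_pos h]

theorem Bw_le {A : ℝ → ℂ} (hA1 : ∀ x, ‖A x‖ ≤ 1) (b L y : ℝ) : ‖Bw A b L y‖ ≤ 1 := by
  unfold Bw
  split_ifs
  · exact hA1 _
  · simp

theorem Bw_meas {A : ℝ → ℂ} (hA : Measurable A) (b L : ℝ) : Measurable (Bw A b L) := by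
  unfold Bw
  refine Measurable.ite measurableSet_Icc (hA.comp ?_) measurable_const
  exact Real.measurable_exp.comp (measurable_const.add measurable_id)

theorem Bw_int {A : ℝ → ℂ} (hA1 : ∀ x, ‖A x‖ ≤ 1) (hA : Measurable A) (b L : ℝ) :
    Integrable (Bw A b L) := by
  have h1 : Integrable ((Set.Icc (0 : ℝ) L).indicator (fun _ => (1 : ℝ))) := by
    rw [integrable_indicator_iff measurableSet_Icc]
    exact integrableOn_const (by rw [Real.volume_Icc]; exact ENNReal.ofReal_ne_top)
  refine h1.mono' (Bw_meas hA b L).aestronglyMeasurable (ae_of_all _ fun y => ?_)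
  by_cases hy : y ∈ Set.Icc 0 L
  · rw [Set.indicator_of_mem hy]
    exact Bw_le hA1 b L y
  · rw [Set.indicator_of_notMem hy, Bw_zero hy, norm_zero]

theorem vb_sub {A : ℝ → ℂ} (hA1 : ∀ x, ‖A x‖ ≤ 1) (hA : PolyVar A) (b : ℝ) {L : ℝ} (hL : 0 ≤ L)
    (y y' : ℝ) (hy : y ≤ y') : ‖Bw A b L y' - Bw A b L y‖ ≤ vb A b L y' - vb A b L y := by
  have hva : 0 ≤ va A (Real.exp (b + L)) := va_nonneg _ _
  rcases lt_or_ge y 0 with h0 | h0
  · rw [Bw_zero (y := y) (fun h => absurd h.1 (not_le.2 h0)), sub_zero]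
    have e0 : vb A b L y = 0 := by unfold vb; rw [if_pos h0]
    rw [e0, sub_zero]
    rcases lt_or_ge y' 0 with h1 | h1
    · rw [Bw_zero (fun h => absurd h.1 (not_le.2 h1)), norm_zero]
      unfold vb
      rw [if_pos h1]
    · have e1 : vb A b L y' = if y' ≤ L then 1 + va A (Real.exp (b + y')) else
          2 + va A (Real.exp (b + L)) := by unfold vb; rw [if_neg (not_lt.2 h1)]
      rw [e1]
      have h2 := Bw_le hA1 b L y'
      split_ifs with h3
      · linarith [va_nonneg A (Real.exp (b + y'))]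
      · linarith
  · rcases le_or_gt y L with h1 | h1
    · have e0 : vb A b L y = 1 + va A (Real.exp (b + y)) := by
        unfold vb; rw [if_neg (not_lt.2 h0), if_pos h1]
      rw [e0, Bw_in ⟨h0, h1⟩]
      have h0' : 0 ≤ y' := h0.trans hy
      rcases le_or_gt y' L with h2 | h2
      · have e1 : vb A b L y' = 1 + va A (Real.exp (b + y')) := by
          unfold vb; rw [if_neg (not_lt.2 h0'), if_pos h2]
        rw [e1, Bw_in ⟨h0', h2⟩]
        have h3 := va_sub hA (Real.exp_pos (b + y)).le
          (Real.exp_le_exp.2 (by linarith : b + y ≤ b + y'))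
        linarith
      · have e1 : vb A b L y' = 2 + va A (Real.exp (b + L)) := by
          unfold vb; rw [if_neg (not_lt.2 h0'), if_neg (not_le.2 h2)]
        rw [e1, Bw_zero (fun h => absurd h.2 (not_le.2 h2)), zero_sub, norm_neg]
        have h3 := va_mono hA (Real.exp_pos (b + y)).le
          (Real.exp_le_exp.2 (by linarith : b + y ≤ b + L))
        have h4 := hA1 (Real.exp (b + y))
        linarith
    · have h1' : L < y' := lt_of_lt_of_le h1 hy
      rw [Bw_zero (y := y') (fun h => absurd h.2 (not_le.2 h1')),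
        Bw_zero (y := y) (fun h => absurd h.2 (not_le.2 h1)), sub_zero, norm_zero]
      unfold vb
      rw [if_neg (not_lt.2 (h0.trans hy)), if_neg (not_le.2 h1'), if_neg (not_lt.2 h0),
        if_neg (not_le.2 h1), sub_self]

theorem vb_nonneg (A : ℝ → ℂ) (b L y : ℝ) : 0 ≤ vb A b L y := by
  unfold vb
  have h1 := va_nonneg A (Real.exp (b + y))
  have h2 := va_nonneg A (Real.exp (b + L))
  split_ifs <;> linarith

theorem vb_le {A : ℝ → ℂ} (hA : PolyVar A) (b L y : ℝ) :
    vb A b L y ≤ 2 + va A (Real.exp (b + L)) := by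
  unfold vb
  have h2 := va_nonneg A (Real.exp (b + L))
  split_ifs with h h1
  · linarith
  · have h3 := va_mono hA (Real.exp_pos (b + y)).le
      (Real.exp_le_exp.2 (by linarith : b + y ≤ b + L))
    linarith
  · exact le_rfl

theorem win : S_WIN := by
  intro A b hA1 hA hV
  obtain ⟨C, D, hD, h⟩ := id hV
  refine ⟨2 + |C| * Real.exp (D * |b|), D, by positivity, hD.le, fun L s hL hs _ => ?_⟩
  have hX : 1 ≤ Real.exp (|b| + L) := Real.one_le_exp (by positivity)
  have h1 := h _ hX
  have h2 : va A (Real.exp (|b| + L)) ≤ |C| * Real.exp (D * (|b| + L)) := by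
    unfold va
    refine ENNReal.toReal_le_of_le_ofReal (by positivity) (h1.trans (ENNReal.ofReal_le_ofReal ?_))
    rw [← Real.exp_mul, mul_comm (|b| + L) D]
    exact mul_le_mul_of_nonneg_right (le_abs_self C) (Real.exp_pos _).le
  have h3 : va A (Real.exp (b + L)) ≤ va A (Real.exp (|b| + L)) :=
    va_mono hV (Real.exp_pos _).le (Real.exp_le_exp.2 (by linarith [le_abs_self b]))
  have hm : Monotone (vb A b L) := by
    intro y y' hy
    have := vb_sub hA1 hV b hL y y' hy
    have := norm_nonneg (Bw A b L y' - Bw A b L y)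
    linarith
  refine (int_var (Bw_int hA1 hA b L) hm (vb_nonneg A b L) (vb_le hV b L)
    (vb_sub hA1 hV b hL) hs).trans ?_
  refine mul_le_mul_of_nonneg_right ?_ hs
  have h4 : 1 ≤ Real.exp (D * L) := Real.one_le_exp (by positivity)
  have e : Real.exp (D * (|b| + L)) = Real.exp (D * |b|) * Real.exp (D * L) := by
    rw [← Real.exp_add]; congr 1; ring
  rw [e] at h2
  calc 2 + va A (Real.exp (b + L)) ≤ 2 * Real.exp (D * L) +
        |C| * (Real.exp (D * |b|) * Real.exp (D * L)) := by linarith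
    _ = (2 + |C| * Real.exp (D * |b|)) * Real.exp (D * L) := by ring

end Pool.Agent.Y185.VK
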